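import Mathlib

namespace Pool.Agent.Results.MP_6e5fe0_co.NoFlame

/-- `P` is the edge set of a directed path from `r` to `v` using only edges of `F` -/
def IsPath {V : Type} (F : Set (V × V)) (r v : V) (P : Set (V × V)) : Prop :=
  P ⊆ F ∧ ∃ (n : ℕ) (f : ℕ → V), f 0 = r ∧ f n = v ∧ Set.InjOn f (Set.Iic n) ∧
    P = {e | ∃ i < n, e = (f i, f (i + 1))}

/-- `I` belongs to the edge-connectivity system of the rooted digraph with edge set `F` -/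
def InG {V : Type} (F : Set (V × V)) (r : V) (I : Set (V × V)) : Prop :=
  I ⊆ F ∧ ∀ v, v ≠ r → ∃ S : Set (Set (V × V)), (∀ P ∈ S, IsPath F r v P) ∧
    S.PairwiseDisjoint id ∧ ∀ e ∈ I, e.2 = v → ∃ P ∈ S, e ∈ P

inductive W : Type
  | r : W
  | a : ℕ → W
  | b : ℕ → W
  | c : ℕ → W
  | u : W
  | v : {T : Set ℕ // Tᶜ.Infinite} → W

open W

inductive Ed : W → W → Prop
  | ra (i) : Ed r (a i)
  | ab (i j) : Ed (a i) (b j)
  | bc (j) : Ed (b j) (c j)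
  | cu (j) : Ed (c j) u
  | au (i) : Ed (a i) u
  | uv (T) : Ed u (v T)
  | cv (j T) : Ed (c j) (v T)
  | av (i T) : i ∈ T.1 → Ed (a i) (v T)

def D : Set (W × W) := {e | Ed e.1 e.2}

def I : Set (W × W) := {e | e ∈ D ∧ ((∃ j, e = (c j, u)) ∨ ∃ T, e.2 = v T)}

def rk : W → ℕ
  | r => 0
  | a _ => 1
  | b _ => 2
  | c _ => 3
  | u => 4
  | v _ => 5

lemma rk_lt {x y : W} (h : Ed x y) : rk x < rk y := by
  cases h <;> simp [rk]

lemma mk_path (n : ℕ) (f : ℕ → W) (h : ∀ i < n, Ed (f i) (f (i + 1))) (h0 : f 0 = r) :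
    IsPath D r (f n) {e | ∃ i < n, e = (f i, f (i + 1))} := by
  refine ⟨?_, n, f, h0, rfl, ?_, rfl⟩
  · rintro e ⟨i, hi, rfl⟩
    exact h i hi
  · have : StrictMonoOn (fun i => rk (f i)) (Set.Iic n) :=
      strictMonoOn_Iic_of_lt_succ fun i hi => rk_lt (h i hi)
    exact fun i hi j hj e => this.injOn hi hj (by simp only [e])

lemma disj {ι : Type} (g : ι → Set (W × W)) (k : ι → ℕ) (hk : Function.Injective k)
    (l : W × W → ℕ) (h : ∀ i, ∀ e ∈ g i, l e = k i) : (Set.range g).PairwiseDisjoint id := by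
  rintro _ ⟨i, rfl⟩ _ ⟨j, rfl⟩ hne
  refine Set.disjoint_left.2 fun e h1 h2 => hne ?_
  rw [hk ((h i e h1).symm.trans (h j e h2))]

def lab (t : ℕ → ℕ) : W × W → ℕ
  | (r, a i) => i
  | (a i, _) => i
  | (b j, _) => t (j + 1)
  | (c j, _) => t (j + 1)
  | _ => t 0

def p4 (i j : ℕ) (x : W) : ℕ → W
  | 0 => r
  | 1 => a i
  | 2 => b j
  | 3 => c j
  | _ => x

def p3 (i : ℕ) (x : W) : ℕ → W
  | 0 => r
  | 1 => a i
  | 2 => u
  | _ => x

def p2 (i : ℕ) (x : W) : ℕ → W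
  | 0 => r
  | 1 => a i
  | _ => x

def es (n : ℕ) (f : ℕ → W) : Set (W × W) := {e | ∃ i < n, e = (f i, f (i + 1))}

lemma I_mem : InG D r I := by
  refine ⟨fun e he => he.1, fun x _ => ?_⟩
  by_cases hu : x = u
  · subst hu
    refine ⟨Set.range fun j => es 4 (p4 j j u), ?_, ?_, ?_⟩
    · rintro _ ⟨j, rfl⟩
      refine mk_path 4 (p4 j j u) (fun i hi => ?_) rfl
      interval_cases i <;> constructor
    · refine disj _ id Function.injective_id (lab fun j => j - 1) ?_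
      rintro j _ ⟨i, hi, rfl⟩
      interval_cases i <;> simp [lab, p4]
    · rintro e ⟨_, ⟨j, rfl⟩ | ⟨T, hT⟩⟩ h2
      · exact ⟨_, ⟨j, rfl⟩, 3, by omega, rfl⟩
      · rw [hT] at h2
        cases h2
  by_cases hv : ∃ T, x = v T
  · obtain ⟨T, rfl⟩ := hv
    let t : ℕ ↪ (T.1ᶜ : Set ℕ) := T.2.natEmbedding
    let g : T.1 ⊕ ℕ → Set (W × W) := fun s => match s with
      | .inl i => es 2 (p2 i (v T))
      | .inr 0 => es 3 (p3 (t 0) (v T))
      | .inr (j + 1) => es 4 (p4 (t (j + 1)) j (v T))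
    refine ⟨Set.range g, ?_, ?_, ?_⟩
    · rintro _ ⟨i | _ | j, rfl⟩
      · refine mk_path 2 (p2 i (v T)) (fun k hk => ?_) rfl
        interval_cases k
        · constructor
        · exact Ed.av _ _ i.2
      · refine mk_path 3 (p3 (t 0) (v T)) (fun k hk => ?_) rfl
        interval_cases k <;> constructor
      · refine mk_path 4 (p4 (t (j + 1)) j (v T)) (fun k hk => ?_) rfl
        interval_cases k <;> constructor
    · refine disj g (Sum.elim (fun i => (i : ℕ)) fun j => (t j : ℕ)) ?_ (lab fun j => t j) ?_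
      · rintro (i | i) (j | j) h
        · exact congrArg _ (Subtype.ext h)
        · exact absurd (show (t j : ℕ) ∈ T.1 from (show (i : ℕ) = t j from h) ▸ i.2) (t j).2
        · exact absurd (show (t i : ℕ) ∈ T.1 from (show (t i : ℕ) = j from h).symm ▸ j.2) (t i).2
        · exact congrArg _ (t.injective (Subtype.ext h))
      · rintro (i | _ | j) _ ⟨k, hk, rfl⟩ <;> interval_cases k <;> simp [lab, p2, p3, p4]
    · rintro ⟨x, y⟩ ⟨h1, _⟩ rfl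
      cases h1 with
      | uv => exact ⟨_, ⟨.inr 0, rfl⟩, 2, by omega, rfl⟩
      | cv j => exact ⟨_, ⟨.inr (j + 1), rfl⟩, 3, by omega, rfl⟩
      | av i _ hi => exact ⟨_, ⟨.inl ⟨i, hi⟩, rfl⟩, 1, by omega, rfl⟩
  · refine ⟨∅, by simp, by simp, ?_⟩
    rintro e ⟨_, ⟨j, rfl⟩ | ⟨T, hT⟩⟩ h2
    · exact absurd h2.symm hu
    · exact absurd ⟨T, h2.symm.trans hT⟩ hv

lemma back {F P : Set (W × W)} {z x y : W} (h : IsPath F r z P) (he : (x, y) ∈ P) (hx : x ≠ r) :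
    ∃ w, (w, x) ∈ P := by
  obtain ⟨_, n, f, h0, _, _, rfl⟩ := h
  obtain ⟨i, hi, e⟩ := he
  obtain ⟨rfl, rfl⟩ := Prod.mk.inj e
  cases i with
  | zero => exact absurd h0 hx
  | succ i => exact ⟨f i, i, by omega, rfl⟩

lemma uniq {F P : Set (W × W)} {z x x' y : W} (h : IsPath F r z P) (he : (x, y) ∈ P)
    (he' : (x', y) ∈ P) : x = x' := by
  obtain ⟨_, n, f, _, _, hf, rfl⟩ := h
  obtain ⟨i, hi, e⟩ := he
  obtain ⟨j, hj, e'⟩ := he'
  obtain ⟨rfl, rfl⟩ := Prod.mk.inj e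
  obtain ⟨rfl, e2⟩ := Prod.mk.inj e'
  have := hf (show i + 1 ∈ Set.Iic n from hi) (show j + 1 ∈ Set.Iic n from hj) e2
  have : i = j := by omega
  rw [this]

lemma back_a {F P : Set (W × W)} {z y : W} {i : ℕ} (hF : F ⊆ D) (h : IsPath F r z P)
    (he : (a i, y) ∈ P) : (r, a i) ∈ P := by
  obtain ⟨w, hw⟩ := back h he (by simp)
  have : Ed w (a i) := hF (h.1 hw)
  cases this
  exact hw

lemma back_c {F P : Set (W × W)} {z y : W} {j : ℕ} (hF : F ⊆ D) (h : IsPath F r z P)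
    (he : (c j, y) ∈ P) : (b j, c j) ∈ P := by
  obtain ⟨w, hw⟩ := back h he (by simp)
  have : Ed w (c j) := hF (h.1 hw)
  cases this
  exact hw

lemma back_b {F P : Set (W × W)} {z y : W} {j : ℕ} (hF : F ⊆ D) (h : IsPath F r z P)
    (he : (b j, y) ∈ P) : ∃ i, (a i, b j) ∈ P := by
  obtain ⟨w, hw⟩ := back h he (by simp)
  have : Ed w (b j) := hF (h.1 hw)
  cases this
  exact ⟨_, hw⟩

lemma no_flame (F : Set (W × W)) (hF : F ⊆ D) (hI : I ⊆ F) : ¬ InG F r F := by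
  rintro ⟨_, h⟩
  have same : ∀ {S : Set (Set (W × W))}, S.PairwiseDisjoint id → ∀ {P Q e}, P ∈ S → Q ∈ S →
      e ∈ P → e ∈ Q → P = Q := by
    intro S hS P Q e hP hQ h1 h2
    by_contra hne
    exact Set.disjoint_left.1 (hS hP hQ hne) h1 h2
  have hT : ({i | (a i, u) ∈ F}ᶜ : Set ℕ).Infinite := by
    obtain ⟨S, h1, h2, h3⟩ := h u (by simp)
    have : ∀ j, ∃ i, ∃ P ∈ S, (c j, u) ∈ P ∧ (r, a i) ∈ P := by
      intro j
      obtain ⟨P, hP, he⟩ := h3 (c j, u) (hI ⟨Ed.cu j, Or.inl ⟨j, rfl⟩⟩) rfl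
      obtain ⟨i, hi⟩ := back_b hF (h1 P hP) (back_c hF (h1 P hP) he)
      exact ⟨i, P, hP, he, back_a hF (h1 P hP) hi⟩
    choose t ht using this
    refine Set.infinite_of_injective_forall_mem (f := t) ?_ ?_
    · intro j k e
      obtain ⟨P, hP, p1, p2⟩ := ht j
      obtain ⟨Q, hQ, q1, q2⟩ := ht k
      rw [← e] at q2
      obtain rfl := same h2 hP hQ p2 q2
      exact c.inj (uniq (h1 P hP) p1 q1)
    · intro j hj
      obtain ⟨P, hP, p1, p2⟩ := ht j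
      obtain ⟨Q, hQ, q1⟩ := h3 (a (t j), u) hj rfl
      obtain rfl := same h2 hP hQ p2 (back_a hF (h1 Q hQ) q1)
      cases uniq (h1 P hP) p1 q1
  obtain ⟨S, h1, h2, h3⟩ := h (v ⟨_, hT⟩) (by simp)
  obtain ⟨P, hP, p1⟩ := h3 (u, v ⟨_, hT⟩) (hI ⟨Ed.uv _, Or.inr ⟨_, rfl⟩⟩) rfl
  obtain ⟨w, hw⟩ := back (h1 P hP) p1 (by simp)
  have hw1 : (w, u) ∈ F := (h1 P hP).1 hw
  have hw2 : Ed w u := hF hw1
  cases hw2 with
  | cu j =>
    obtain ⟨Q, hQ, q1⟩ := h3 (c j, v ⟨_, hT⟩) (hI ⟨Ed.cv _ _, Or.inr ⟨_, rfl⟩⟩) rfl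
    obtain rfl := same h2 hP hQ (back_c hF (h1 P hP) hw) (back_c hF (h1 Q hQ) q1)
    cases uniq (h1 P hP) p1 q1
  | au i =>
    obtain ⟨Q, hQ, q1⟩ := h3 (a i, v ⟨_, hT⟩) (hI ⟨Ed.av _ _ hw1, Or.inr ⟨_, rfl⟩⟩) rfl
    obtain rfl := same h2 hP hQ (back_a hF (h1 P hP) hw) (back_a hF (h1 Q hQ) q1)
    cases uniq (h1 P hP) p1 q1

theorem result : ∃ (V : Type) (E : Set (V × V)) (r : V) (ρ : V → ℕ),
    (∀ e ∈ E, ρ e.1 < ρ e.2) ∧ (∀ e ∈ E, e.2 ≠ r) ∧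
    ∃ I : Set (V × V), InG E r I ∧ ∀ F : Set (V × V), F ⊆ E → I ⊆ F → ¬ InG F r F := by
  refine ⟨W, D, r, rk, fun e he => rk_lt he, ?_, I, I_mem, no_flame⟩
  rintro ⟨x, y⟩ he rfl
  cases he

end Pool.Agent.Results.MP_6e5fe0_co.NoFlame
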